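import Pool.Agent.Helper42.CV.Defs

/-!
# CV: block C3

The closed logarithmic forms `v(α) = ∑ α_i dz_i / z_i` orthogonal to `h` which are independent over the
constants `M` are independent over `R`.
-/

set_option autoImplicit false

namespace Pool.Agent.CV

open Module

/-- Vectors with coordinates in `R`, independent over `R`, are independent over an extension. -/
private theorem li_ext_24 {R F : Type*} [Field R] [Field F] [Algebra R F] {k m : ℕ} (v : Fin k → Fin m → R)
    (hv : LinearIndependent R v) : LinearIndependent F fun j => fun b => algebraMap R F (v j b) := by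
  -- a left inverse
  have h1 : LinearMap.ker (Fintype.linearCombination R v) = ⊥ := by
    rw [LinearMap.ker_eq_bot]
    exact hv.fintypeLinearCombination_injective
  obtain ⟨φ, hφ⟩ := (Fintype.linearCombination R v).exists_leftInverse_of_injective h1
  have hφv : ∀ j, φ (v j) = Pi.single j 1 := by
    intro j
    have h2 : Fintype.linearCombination R v (Pi.single j 1) = v j := by
      rw [Fintype.linearCombination_apply_single, one_smul]
    rw [← h2, ← LinearMap.comp_apply, hφ, LinearMap.id_apply]
  have hsum : ∀ (w : Fin m → R) (i : Fin k), φ w i = ∑ b, w b * φ (Pi.single b 1) i := by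
    intro w i
    have h0 : w = ∑ b, w b • (Pi.single b (1 : R) : Fin m → R) := by
      funext c
      rw [Finset.sum_apply, Finset.sum_eq_single c]
      · rw [Pi.smul_apply, Pi.single_eq_same, smul_eq_mul, mul_one]
      · intro b _ hb
        rw [Pi.smul_apply, Pi.single_eq_of_ne (Ne.symm hb), smul_eq_mul, mul_zero]
      · intro hc
        exact absurd (Finset.mem_univ c) hc
    conv_lhs => rw [h0]
    rw [map_sum, Finset.sum_apply]
    refine Finset.sum_congr rfl fun b _ => ?_
    rw [map_smul, Pi.smul_apply, smul_eq_mul]
  rw [Fintype.linearIndependent_iff]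
  intro g hg i
  have h3 : ∀ b, ∑ j, g j * algebraMap R F (v j b) = 0 := by
    intro b
    have := congrFun hg b
    rw [Finset.sum_apply] at this
    exact this
  have h4 : ∑ b, (∑ j, g j * algebraMap R F (v j b)) * algebraMap R F (φ (Pi.single b 1) i) = g i := by
    have h5 : ∀ b, (∑ j, g j * algebraMap R F (v j b)) * algebraMap R F (φ (Pi.single b 1) i) =
        ∑ j, g j * algebraMap R F (v j b * φ (Pi.single b 1) i) := by
      intro b
      rw [Finset.sum_mul]
      refine Finset.sum_congr rfl fun j _ => ?_
      rw [map_mul, mul_assoc]
    simp only [h5]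
    rw [Finset.sum_comm]
    have h6 : ∀ j, ∑ b, g j * algebraMap R F (v j b * φ (Pi.single b 1) i) =
        g j * algebraMap R F (if j = i then 1 else 0) := by
      intro j
      rw [← Finset.mul_sum, ← map_sum, ← hsum, hφv, Pi.single_apply]
      congr 2
      by_cases h : j = i
      · rw [if_pos h, if_pos h.symm]
      · rw [if_neg h, if_neg (Ne.symm h)]
    simp only [h6]
    rw [Finset.sum_eq_single i]
    · rw [if_pos rfl, map_one, mul_one]
    · intro j _ hj
      rw [if_neg hj, map_zero, mul_zero]
    · intro h
      exact absurd (Finset.mem_univ i) h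
  rw [← h4]
  refine Finset.sum_eq_zero fun b _ => ?_
  rw [h3, zero_mul]

theorem claim1 {M R F : Type*} [Field M] [CharZero M] [Field R] [Field F] [Algebra M R] [Algebra R F] [Algebra M F]
    [IsScalarTower M R F] {m ρ q : ℕ} (d : Fin m → Derivation M R R) (hd : ∀ b c x, d b (d c x) = d c (d b x))
    (hspan : ∀ D : Derivation M R R, ∃ g : Fin m → R, ∀ x, D x = ∑ b, g b * d b x) (η : Derivation M R F) (h : Fin m → F)
    (hη : ∀ x : R, η x = ∑ b, h b * algebraMap R F (d b x)) (hker : ∀ x : R, η x = 0 → ∃ c : M, algebraMap M R c = x)
    (z : Fin q → R) (hz : ∀ i, z i ≠ 0) (α : Fin ρ → Fin q → M) (hα : LinearIndependent M α)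
    (hrel : ∀ s, ∑ i, algebraMap M F (α s i) * (η (z i) / algebraMap R F (z i)) = 0) : ρ ≤ (m - 1) + finrank M (Nul M z) := by
  by_cases hh : h = 0
  · -- then `R = M` and `Nul` is everything
    have h1 : Nul M z = ⊤ := by
      rw [eq_top_iff]
      rintro β - D
      refine Finset.sum_eq_zero fun i _ => ?_
      obtain ⟨c, hc⟩ := hker (z i) (by rw [hη, hh]; simp)
      rw [← hc, Derivation.map_algebraMap, zero_div, mul_zero]
    rw [h1, finrank_top, finrank_fintype_fun_eq_card, Fintype.card_fin]
    have h2 := hα.fintype_card_le_finrank
    rw [Fintype.card_fin, finrank_fintype_fun_eq_card, Fintype.card_fin] at h2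
    omega
  -- the map `v`
  let v : (Fin q → M) →ₗ[M] (Fin m → R) :=
    { toFun := fun β b => ∑ i, algebraMap M R (β i) * (d b (z i) / z i)
      map_add' := by
        intro β γ
        funext b
        simp only [Pi.add_apply, map_add, add_mul, Finset.sum_add_distrib]
      map_smul' := by
        intro c β
        funext b
        simp only [Pi.smul_apply, smul_eq_mul, map_mul, mul_assoc, RingHom.id_apply, Finset.smul_sum]
        refine Finset.sum_congr rfl fun i _ => ?_
        rw [Algebra.smul_def] }
  have hv : ∀ β b, v β b = ∑ i, algebraMap M R (β i) * (d b (z i) / z i) := fun _ _ => rfl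
  have hvker : LinearMap.ker v ≤ Nul M z := by
    intro β hβ D
    rw [LinearMap.mem_ker] at hβ
    obtain ⟨g, hg⟩ := hspan D
    have h1 : ∀ i, algebraMap M R (β i) * (D (z i) / z i) = ∑ b, g b * (algebraMap M R (β i) * (d b (z i) / z i)) := by
      intro i
      rw [hg, Finset.sum_div, Finset.mul_sum]
      refine Finset.sum_congr rfl fun b _ => ?_
      ring
    simp only [h1]
    rw [Finset.sum_comm]
    refine Finset.sum_eq_zero fun b _ => ?_
    rw [← Finset.mul_sum, ← hv, hβ, Pi.zero_apply, mul_zero]
  -- closedness
  have hclosed : ∀ β b c, d c (v β b) = d b (v β c) := by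
    intro β b c
    rw [hv, hv, map_sum, map_sum]
    refine Finset.sum_congr rfl fun i _ => ?_
    rw [Derivation.leibniz, Derivation.leibniz, Derivation.map_algebraMap, Derivation.map_algebraMap,
      Derivation.leibniz_div, Derivation.leibniz_div, hd b c]
    simp only [smul_eq_mul]
    ring
  have hort : ∀ s, ∑ b, h b * algebraMap R F (v (α s) b) = 0 := by
    intro s
    rw [← hrel s]
    have h1 : ∀ b, h b * algebraMap R F (v (α s) b) =
        ∑ i, algebraMap M F (α s i) * (h b * algebraMap R F (d b (z i)) / algebraMap R F (z i)) := by
      intro b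
      rw [hv, map_sum, Finset.mul_sum]
      refine Finset.sum_congr rfl fun i _ => ?_
      rw [map_mul, map_div₀, ← IsScalarTower.algebraMap_apply]
      ring
    simp only [h1]
    rw [Finset.sum_comm]
    refine Finset.sum_congr rfl fun i _ => ?_
    rw [← Finset.mul_sum, ← Finset.sum_div, ← hη]
  -- the space of the closed forms orthogonal to `h`
  let W : Submodule M (Fin m → R) :=
    { carrier := {w | (∀ b c, d c (w b) = d b (w c)) ∧ ∑ b, h b * algebraMap R F (w b) = 0}
      zero_mem' := by simp
      add_mem' := by
        rintro w w' ⟨h1, h2⟩ ⟨h3, h4⟩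
        refine ⟨fun b c => ?_, ?_⟩
        · simp only [Pi.add_apply, map_add, h1 b c, h3 b c]
        · simp only [Pi.add_apply, map_add, mul_add, Finset.sum_add_distrib, h2, h4, add_zero]
      smul_mem' := by
        rintro t w ⟨h1, h2⟩
        refine ⟨fun b c => ?_, ?_⟩
        · simp only [Pi.smul_apply, Derivation.map_smul, h1 b c]
        · have : ∀ b, h b * algebraMap R F ((t • w) b) = algebraMap M F t * (h b * algebraMap R F (w b)) := by
            intro b
            rw [Pi.smul_apply, Algebra.smul_def, map_mul, ← IsScalarTower.algebraMap_apply]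
            ring
          simp only [this]
          rw [← Finset.mul_sum, h2, mul_zero] }
  have claim : ∀ (k : ℕ) (w : Fin k → Fin m → R), (∀ j, w j ∈ W) → LinearIndependent M w → LinearIndependent R w := by
    intro k
    induction k with
    | zero =>
      intro w _ _
      exact linearIndependent_empty_type
    | succ k ih =>
      intro w hw hM
      rw [linearIndependent_finSucc'] at hM ⊢
      have hIH := ih (Fin.init w) (fun j => hw _) hM.1
      refine ⟨hIH, fun hmem => hM.2 ?_⟩
      rw [Submodule.mem_span_range_iff_exists_fun] at hmem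
      obtain ⟨f, hf⟩ := hmem
      have hf' : ∀ b, w (Fin.last k) b = ∑ j, f j * Fin.init w j b := by
        intro b
        rw [← hf, Finset.sum_apply]
        rfl
      -- eta kills the coefficients
      have hF := li_ext_24 (F := F) (Fin.init w) hIH
      rw [Fintype.linearIndependent_iff] at hF
      have h1 : ∀ j, η (f j) = 0 := by
        apply hF
        funext b
        rw [Finset.sum_apply, Pi.zero_apply]
        simp only [Pi.smul_apply, smul_eq_mul]
        have h2 : ∀ c, ∑ j, (d c (f j) * Fin.init w j b - d b (f j) * Fin.init w j c) = 0 := by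
          intro c
          have h3 := (hw (Fin.last k)).1 b c
          rw [hf' b, hf' c, map_sum, map_sum, ← sub_eq_zero, ← Finset.sum_sub_distrib] at h3
          rw [← h3]
          refine Finset.sum_congr rfl fun j _ => ?_
          rw [Derivation.leibniz, Derivation.leibniz]
          simp only [smul_eq_mul]
          have h4 : d c (Fin.init w j b) = d b (Fin.init w j c) := (hw _).1 b c
          rw [h4]
          ring
        have h5 : ∑ c, h c * algebraMap R F (∑ j, (d c (f j) * Fin.init w j b - d b (f j) * Fin.init w j c)) = 0 :=
          Finset.sum_eq_zero fun c _ => by rw [h2, map_zero, mul_zero]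
        rw [← h5]
        have h6 : ∀ c, h c * algebraMap R F (∑ j, (d c (f j) * Fin.init w j b - d b (f j) * Fin.init w j c)) =
            ∑ j, (h c * algebraMap R F (d c (f j)) * algebraMap R F (Fin.init w j b) -
              algebraMap R F (d b (f j)) * (h c * algebraMap R F (Fin.init w j c))) := by
          intro c
          rw [map_sum, Finset.mul_sum]
          refine Finset.sum_congr rfl fun j _ => ?_
          rw [map_sub, map_mul, map_mul]
          ring
        simp only [h6]
        rw [Finset.sum_comm]
        refine Finset.sum_congr rfl fun j _ => ?_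
        rw [Finset.sum_sub_distrib, ← Finset.sum_mul, ← Finset.mul_sum, ← hη]
        have h7 : ∑ c, h c * algebraMap R F (Fin.init w j c) = 0 := (hw _).2
        rw [h7, mul_zero, sub_zero]
      choose c hc using fun j => hker (f j) (h1 j)
      rw [Submodule.mem_span_range_iff_exists_fun]
      refine ⟨c, ?_⟩
      rw [← hf]
      refine Finset.sum_congr rfl fun j _ => ?_
      rw [← hc j, algebraMap_smul]
  -- the dimension of `W`-valued independent families
  have hdim : ∀ (k : ℕ) (w : Fin k → Fin m → R), (∀ j, w j ∈ W) → LinearIndependent M w → k ≤ m - 1 := by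
    intro k w hw hM
    have h1 := li_ext_24 (F := F) w (claim k w hw hM)
    let φ : (Fin m → F) →ₗ[F] F := Fintype.linearCombination F h
    have hφ : ∀ u, φ u = ∑ b, u b * h b := fun u => rfl
    have hφ0 : φ ≠ 0 := by
      intro h0
      apply hh
      funext b
      have h2 : φ (Pi.single b 1) = h b := by
        show Fintype.linearCombination F h (Pi.single b 1) = h b
        rw [Fintype.linearCombination_apply_single, one_smul]
      rw [← h2, h0]
      rfl
    have h3 : finrank F (LinearMap.ker φ) + 1 = m := by
      have h4 := LinearMap.finrank_range_add_finrank_ker φ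
      rw [LinearMap.range_eq_top.mpr (LinearMap.surjective hφ0), finrank_top, finrank_self,
        finrank_fintype_fun_eq_card, Fintype.card_fin] at h4
      omega
    have h5 : ∀ j, (fun b => algebraMap R F (w j b)) ∈ LinearMap.ker φ := by
      intro j
      rw [LinearMap.mem_ker, hφ, ← (hw j).2]
      exact Finset.sum_congr rfl fun b _ => mul_comm _ _
    have h6 : LinearIndependent F fun j => (⟨_, h5 j⟩ : LinearMap.ker φ) := by
      apply LinearIndependent.of_comp (LinearMap.ker φ).subtype
      exact h1
    have h7 := h6.fintype_card_le_finrank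
    rw [Fintype.card_fin] at h7
    omega
  -- rank and nullity
  let A : Submodule M (Fin q → M) := Submodule.span M (Set.range α)
  have hA : finrank M A = ρ := by
    have := finrank_span_eq_card hα
    rwa [Fintype.card_fin] at this
  have hvA : ∀ β ∈ A, v β ∈ W := by
    intro β hβ
    have : A ≤ W.comap v := by
      refine Submodule.span_le.mpr ?_
      rintro _ ⟨s, rfl⟩
      exact ⟨fun b c => hclosed _ b c, hort s⟩
    exact this hβ
  let vA : A →ₗ[M] (Fin m → R) := v ∘ₗ A.subtype
  have h1 := LinearMap.finrank_range_add_finrank_ker vA
  rw [hA] at h1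
  have h2 : finrank M (LinearMap.ker vA) ≤ finrank M (Nul M z) := by
    have h3 : ∀ x : LinearMap.ker vA, ((x : A) : Fin q → M) ∈ Nul M z := by
      intro x
      apply hvker
      exact x.2
    let f : LinearMap.ker vA →ₗ[M] Nul M z :=
      LinearMap.codRestrict _ (A.subtype ∘ₗ (LinearMap.ker vA).subtype) h3
    apply LinearMap.finrank_le_finrank_of_injective (f := f)
    intro x y hxy
    have := congrArg Subtype.val hxy
    exact Subtype.ext (Subtype.ext this)
  have h4 : finrank M (LinearMap.range vA) ≤ m - 1 := by
    let B := finBasis M (LinearMap.range vA)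
    apply hdim _ (fun j => ((B j : LinearMap.range vA) : Fin m → R))
    · intro j
      obtain ⟨β, hβ⟩ := (B j).2
      rw [← hβ]
      exact hvA _ β.2
    · exact B.linearIndependent.map' (LinearMap.range vA).subtype (Submodule.ker_subtype _)
  omega

end Pool.Agent.CV
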